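import Pool.Agent.Lib.MP_b8e63c_lc.Class

/-! A pure state of an abelian von Neumann algebra has a pure extension to `B(H)` that is not
diagonalizable exactly when it lives where the multiplicity is unbounded. -/

open Pool.Agent.Lib.MP_b8e63c_lc

theorem Pool.Agent.Results.MP_b8e63c_lc.AbelianClassification.result
    {H : Type*} [NormedAddCommGroup H] [InnerProductSpace ℂ H] [CompleteSpace H]
    [TopologicalSpace.SeparableSpace H] (hH : ¬ FiniteDimensional ℂ H)
    (A : VonNeumannAlgebra H) (hA : ∀ a ∈ A, ∀ b ∈ A, a * b = b * a)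
    (χ : A.toStarSubalgebra →L[ℂ] ℂ) (hχ : χ ∈ PureStates A.toStarSubalgebra) :
    (∃ φ ∈ PureStates (H →L[ℂ] H), (∀ b : A.toStarSubalgebra, φ b = χ b) ∧ ¬ Diagonalizable φ) ↔
      ∀ m : ℕ, ∃ z : A.toStarSubalgebra, IsStarProjection (z : H →L[ℂ] H) ∧ χ z = 1 ∧
        ∀ q ∈ A, IsStarProjection q → q ≠ 0 → q * z = q →
          (m : Cardinal) < Module.rank ℂ (LinearMap.range (q : H →ₗ[ℂ] H)) :=
  ⟨fun ⟨_, h1, h2, h3⟩ => by_contra fun h => h3 (diag_of_bounded hA hχ hH h1 h2 h),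
    ext_of_unbounded hA hχ⟩
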