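import Pool.Agent.Lib.BDS.Model

namespace Pool.Agent.Results.MP_b8e63c_lc.BlockDiagonal

open Pool.Agent.Lib.MP_fecf72_lc Pool.Agent.Lib.BDS

/-- There is a countable transitive model of ZFC in which every singular state on the bounded
operators is block diagonal for a partition of the basis into finite intervals, and so is every
state with the same restriction to the diagonal operators. -/
theorem result (E : Type) [NormedAddCommGroup E] [InnerProductSpace ℂ E] [CompleteSpace E]
    (b : HilbertBasis ℕ ℂ E) : ∃ M : Set V, M.Countable ∧ IsZFC M ∧ ∀ φ, StateIn b M φ →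
    (∀ k, φ (pr1 b k) = 0) →
    ∃ g : ℕ → ℕ, seqC (fun i => natC (g i)) ∈ M ∧ Monotone g ∧ (∀ n, {i | g i = n}.Finite) ∧
      ∀ ψ, StateIn b M ψ → (∀ D, opC b D ∈ M → (∀ i j, i ≠ j → ent b D i j = 0) → ψ D = φ D) →
        ∀ T, opC b T ∈ M → (∀ i j, g i = g j → ent b T i j = 0) → ψ T = 0 := LV.main b

end Pool.Agent.Results.MP_b8e63c_lc.BlockDiagonal
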