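import Pool.Agent.Lib.MP_b8e63c_lc.Ext

/-! Every pure state of a subalgebra of a von Neumann algebra that lives on the part without
minimal projections extends to a pure state of `B(H)` that is not diagonalizable. -/

open Pool.Agent.Lib.MP_b8e63c_lc

theorem Pool.Agent.Results.MP_b8e63c_lc.DiffuseExtension.result
    {H : Type*} [NormedAddCommGroup H] [InnerProductSpace ℂ H] [CompleteSpace H]
    [TopologicalSpace.SeparableSpace H] (M : VonNeumannAlgebra H) (z : H →L[ℂ] H)
    (hzp : IsStarProjection z) (hzc : z ∈ M.commutant) (hM : NoMinimalBelow M z)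
    (A : StarSubalgebra ℂ (H →L[ℂ] H)) (hA : A ≤ M.toStarSubalgebra) (hz : z ∈ A)
    (ψ : A →L[ℂ] ℂ) (hψ : ψ ∈ PureStates A) (hψz : ψ ⟨z, hz⟩ = 1) :
    ∃ φ ∈ PureStates (H →L[ℂ] H), (∀ b : A, φ b = ψ b) ∧ ¬ Diagonalizable φ :=
  extension M z hzc hzp hM A hA hz ψ hψ hψz
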